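import Pool.Agent.H44.DU.Targets

/-!
# From the slopes to the angles
-/

set_option autoImplicit false

namespace Pool.Agent.H51.DU

open Pool.Agent.H44.DU MeasureTheory

theorem pf_AE : T_AE := by
  intro N hN
  have h1 : volume {θ : ℝ | Real.sin θ = 0} = 0 := by
    have : {θ : ℝ | Real.sin θ = 0} = Set.range (fun k : ℤ => (k : ℝ) * Real.pi) := by
      ext θ
      simp only [Set.mem_ofPred_eq, Set.mem_range]
      exact Real.sin_eq_zero_iff
    rw [this]
    exact (Set.countable_range _).measure_zero _
  have h2 : ∀ k : ℤ, volume ((fun t : ℝ => Real.pi / 2 - Real.arctan t + k * Real.pi) '' N) = 0 := by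
    intro k
    apply MeasureTheory.addHaar_image_eq_zero_of_differentiableOn_of_addHaar_eq_zero
    · apply Differentiable.differentiableOn
      exact ((differentiable_const _).sub Real.differentiable_arctan).add_const _
    · exact hN
  have h3 : volume (⋃ k : ℤ, (fun t : ℝ => Real.pi / 2 - Real.arctan t + k * Real.pi) '' N) = 0 :=
    measure_iUnion_null h2
  have h4 := measure_union_null h1 h3
  rw [← compl_compl ({θ : ℝ | Real.sin θ = 0} ∪
    (⋃ k : ℤ, (fun t : ℝ => Real.pi / 2 - Real.arctan t + k * Real.pi) '' N))] at h4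
  have h5 := mem_ae_iff.2 h4
  filter_upwards [h5] with θ hθ
  simp only [Set.mem_compl_iff, Set.mem_union, Set.mem_ofPred_eq, not_or, Set.mem_iUnion,
    not_exists] at hθ
  obtain ⟨hs, hθ⟩ := hθ
  refine ⟨Real.cos θ / Real.sin θ, ?_, Real.sin θ, hs, ?_⟩
  · intro hmem
    set t := Real.cos θ / Real.sin θ with ht
    have h6 : Real.sin (θ - (Real.pi / 2 - Real.arctan t)) = 0 := by
      rw [Real.sin_sub, Real.cos_pi_div_two_sub, Real.sin_pi_div_two_sub, Real.sin_arctan,
        Real.cos_arctan]
      have h7 : t * Real.sin θ = Real.cos θ := by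
        rw [ht]; field_simp
      rw [← h7]
      ring
    obtain ⟨k, hk⟩ := Real.sin_eq_zero_iff.1 h6
    apply hθ k
    refine ⟨t, hmem, ?_⟩
    simp only
    linarith
  · rw [Complex.exp_mul_I, ← Complex.ofReal_cos, ← Complex.ofReal_sin]
    have hs' : (Real.sin θ : ℂ) ≠ 0 := by exact_mod_cast hs
    push_cast
    push_cast at hs'
    field_simp

end Pool.Agent.H51.DU
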