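import Pool.Agent.H44.DU.Targets

/-!
# Forward determinism
-/

set_option autoImplicit false

namespace Pool.Agent.H51.DU

open Pool.Agent.H44.DU

theorem pf_FD : T_FD := by
  intro n S t x w
  induction w generalizing x with
  | nil =>
    intro w' _ _ _
    exact Or.inl (List.nil_prefix)
  | cons r w ih =>
    intro w' h h' hh
    cases w' with
    | nil => exact Or.inr (List.nil_prefix)
    | cons r' w' =>
      obtain ⟨h1, h2, h3⟩ := h
      obtain ⟨h1', h2', h3'⟩ := h'
      have hr : r.1 = r'.1 := hh r (by simp) r' (by simp)
      have hrr : r = r' := S.exit_unique hr h1 h1'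
      subst hrr
      have := ih (S.mv t r x) w' h3 h3' (by
        intro s hs s' hs'
        exact (h2 s hs).symm.trans (h2' s' hs'))
      rcases this with h | h
      · exact Or.inl ((List.prefix_cons_inj r).2 h)
      · exact Or.inr ((List.prefix_cons_inj r).2 h)

end Pool.Agent.H51.DU
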