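import Pool.Agent.H44.DU.Basic2

/-!
# The letters of an orbit are eventually periodic
-/

set_option autoImplicit false

namespace Pool.Agent.H51.DU

open Pool.Agent.H44.DU

theorem abs_chain {n : ℕ} {S : Surf n} {U : Fin n → Prop} {t : ℝ} (hA : S.Abs U t)
    {y : ℕ → Side n × ℝ} (hy : ∀ k, S.Tr t (y k) (y (k + 1))) (h0 : U (y 0).1.1) (k : ℕ) :
    U (y k).1.1 := by
  induction k with
  | zero => exact h0
  | succ k ih =>
    rw [← (hy k).2.2.1]
    exact hA _ _ (hy k).1 ih

theorem pf_P5 (h : T_P3) : T_P5 := by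
  intro n S U t m hA hm hN y hy h0
  have hP := (h n S U t m hA hm hN).2
  obtain ⟨K1, K2, hne, heq⟩ :=
    Finite.exists_ne_map_eq_of_infinite (fun K : ℕ => fun j : Fin m => (y (K + j)).1)
  have key : ∀ a b : ℕ, a < b →
      (fun j : Fin m => (y (a + j)).1) = (fun j : Fin m => (y (b + j)).1) →
      ∃ K p : ℕ, 0 < p ∧ ∀ k ≥ K, (y (k + p)).1 = (y k).1 := by
    intro a b hab hf
    refine ⟨a, b - a, by omega, ?_⟩
    have h1 := hP (fun j => y (a + j)) (fun j => y (b + j)) (fun k => hy (a + k))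
      (fun k => hy (b + k)) (abs_chain hA hy h0 (a + 0)) (by
        intro j hj
        exact congrFun hf ⟨j, hj⟩)
    intro k hk
    have h2 : (y (a + (k - a))).1 = (y (b + (k - a))).1 := h1 (k - a)
    rw [show a + (k - a) = k by omega, show b + (k - a) = k + (b - a) by omega] at h2
    exact h2.symm
  rcases lt_or_gt_of_ne hne with h1 | h1
  · exact key K1 K2 h1 heq
  · exact key K2 K1 h1 heq.symm

end Pool.Agent.H51.DU
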