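import Pool.Agent.H44.DU.Targets

/-!
# The reversed surface
-/

set_option autoImplicit false

namespace Pool.Agent.H51.DU

open Pool.Agent.H44.DU

theorem hgt_neg {n : ℕ} (U T : Fin n → Prop) (i : Fin n) (z : ℂ) :
    hgt (fun i => ¬ U i) T i (-z) = hgt U T i z := by
  unfold hgt
  by_cases hT : T i
  · simp [hT]
  · by_cases hU : U i
    · simp [hT, hU]
    · simp [hT, hU]

theorem hgt_congr {n : ℕ} (U T : Fin n → Prop) (i : Fin n) {z w : ℂ} (h : z.im = w.im) :
    hgt U T i z = hgt U T i w := by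
  unfold hgt
  rw [h]

theorem pf_RM : T_RM := by
  intro n S U T hM hC
  have hP : ∀ s, S.rev.P s = -S.P s := fun s => rfl
  have hQ : ∀ s, S.rev.Q s = -S.Q s := fun s => rfl
  have hgl : S.rev.gl = S.gl := rfl
  have ha : S.rev.a = S.a := rfl
  -- horizontality at the glued side
  have him : ∀ s, (S.P s).im = (S.Q s).im → (S.P (S.gl s)).im = (S.Q (S.gl s)).im := by
    intro s hs
    rw [S.P_gl, S.Q_gl]
    simp [hs]
  have hre : ∀ s, (S.P s).re < (S.Q s).re → (S.Q (S.gl s)).re < (S.P (S.gl s)).re := by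
    intro s hs
    rw [S.P_gl, S.Q_gl]
    simp only [Complex.add_re, Complex.mul_re, Complex.ofReal_re, Complex.ofReal_im, zero_mul,
      sub_zero, add_lt_add_iff_right]
    exact mul_lt_mul_of_pos_left hs (S.a_pos s)
  refine ⟨⟨?_, ?_, ?_, ?_, ?_, ?_⟩, ?_⟩
  · intro i k
    have : S.rev.v i k = -S.v i k := rfl
    rw [this, hgt_neg]
    exact hM.nonneg i k
  · intro s hs
    rw [hP, hQ] at hs
    simp only [Complex.neg_im, ne_eq, neg_inj] at hs
    exact not_congr (hM.slant_iff s hs)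
  · intro s hs
    rw [hP, hQ] at hs
    simp only [Complex.neg_im, ne_eq, neg_inj] at hs
    rw [hQ, hP, hgl, ha, hgt_neg, hgt_neg]
    exact hM.slant_hgt s hs
  · intro s hs hr hU
    rw [hP, hQ] at hs hr
    simp only [Complex.neg_im, neg_inj, Complex.neg_re, neg_lt_neg_iff] at hs hr
    intro hU2
    rw [hgl] at hU2
    have := hM.flat_imp (S.gl s) (him s hs) (hre s hr) hU2
    rw [S.gl_gl] at this
    exact hU this
  · intro s hs hr hU
    rw [hP, hQ] at hs hr
    simp only [Complex.neg_im, neg_inj, Complex.neg_re, neg_lt_neg_iff] at hs hr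
    rw [hQ, hP, hgl, ha, hgt_neg, hgt_neg]
    have h1 := hM.flat_lower (S.gl s) (him s hs) (hre s hr) (by rw [S.gl_gl]; exact hU)
    rw [S.gl_gl] at h1
    rw [hgt_congr U T s.1 hs, ← hgt_congr U T (S.gl s).1 (him s hs)]
    have h2 := mul_le_mul_of_nonneg_left h1 (S.a_pos s).le
    have h3 : S.a s * S.a (S.gl s) = 1 := by rw [mul_comm]; exact S.a_gl_mul s
    calc S.a s * hgt U T s.1 (S.Q s) ≤ S.a s * (S.a (S.gl s) * hgt U T (S.gl s).1 (S.P (S.gl s))) :=
          h2
      _ = hgt U T (S.gl s).1 (S.P (S.gl s)) := by rw [← mul_assoc, h3, one_mul]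
  · intro s hs hr hU
    rw [hP, hQ] at hs hr
    simp only [Complex.neg_im, neg_inj, Complex.neg_re, neg_lt_neg_iff, not_not] at hs hr hU
    rw [hgl] at hU
    rw [hQ, hP, hgl, ha, hgt_neg, hgt_neg]
    have h1 := hM.flat_upper (S.gl s) (him s hs) (hre s hr) hU
    rw [S.gl_gl] at h1
    rw [hgt_congr U T s.1 hs, ← hgt_congr U T (S.gl s).1 (him s hs)]
    have h2 := mul_le_mul_of_nonneg_left h1 (S.a_pos s).le
    have h3 : S.a s * S.a (S.gl s) = 1 := by rw [mul_comm]; exact S.a_gl_mul s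
    calc hgt U T (S.gl s).1 (S.P (S.gl s)) =
          S.a s * (S.a (S.gl s) * hgt U T (S.gl s).1 (S.P (S.gl s))) := by
            rw [← mul_assoc, h3, one_mul]
      _ ≤ S.a s * hgt U T s.1 (S.Q s) := h2
  · exact hC

end Pool.Agent.H51.DU
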